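import Pool.Agent.TMX.Stmts2

/-!
# TMX, row REACH: balls reaching 1, 2, 3 points
-/

set_option autoImplicit false

namespace Pool.Agent.TMX.H54

open Finset Pool.Agent.TMX
open Pool.Agent.Helper51_Max (I IsMax)

theorem mem_I' {N v r i : ℕ} : i ∈ I N v r ↔ v - r ≤ i ∧ i ≤ v + r ∧ i ≤ N := by
  unfold Pool.Agent.Helper51_Max.I
  rw [mem_Icc]
  omega

theorem base {N : ℕ} {g M : ℕ → ℝ} (hM : IsMax N g M) (v r : ℕ) (μ : ℝ) (hv : v ≤ N)
    (h0 : 0 ≤ ∑ i ∈ I N v r, (g i - μ)) :
    ∑ i ∈ I N v r, (g i - μ) ≤ ((N : ℝ) + 1) * (M v - μ) := by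
  have h1 := hM.le v hv r
  have hcp : (0 : ℝ) < ((I N v r).card : ℝ) := by
    exact_mod_cast Pool.Agent.Helper51_Max.card_I_pos r hv
  have hcN : ((I N v r).card : ℝ) ≤ (N : ℝ) + 1 := by
    have : (I N v r).card ≤ N + 1 := by
      rw [Pool.Agent.Helper51_Max.card_I]
      omega
    exact_mod_cast this
  have h2 : ∑ i ∈ I N v r, (g i - μ) = ∑ i ∈ I N v r, g i - ((I N v r).card : ℝ) * μ := by
    rw [sum_sub_distrib, sum_const, nsmul_eq_mul]
  have h3 : ∑ i ∈ I N v r, (g i - μ) ≤ ((I N v r).card : ℝ) * (M v - μ) := by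
    rw [h2]
    linarith
  have h4 : 0 ≤ M v - μ := by
    by_contra h
    have := mul_neg_of_pos_of_neg hcp (not_le.1 h)
    linarith
  exact h3.trans (mul_le_mul_of_nonneg_right hcN h4)

theorem core {N : ℕ} {g M : ℕ → ℝ} (hM : IsMax N g M) (v r : ℕ) (μ : ℝ) (P : Finset ℕ)
    (hv : v ≤ N) (hμ : ∀ i ∈ I N v r, μ ≤ g i) (hP : P ⊆ I N v r) :
    ∑ i ∈ P, (g i - μ) ≤ ((N : ℝ) + 1) * (M v - μ) := by
  have hn : ∀ i ∈ I N v r, 0 ≤ g i - μ := fun i hi => sub_nonneg.2 (hμ i hi)
  exact (sum_le_sum_of_subset_of_nonneg hP fun i hi _ => hn i hi).trans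
    (base hM v r μ hv (sum_nonneg hn))

/-- **REACH** -/
theorem reach : Reach := by
  intro N g M hM
  refine ⟨fun v r μ hv h0 => base hM v r μ hv h0, ?_, ?_, ?_, ?_⟩
  · intro v q μ hvq hq hμ
    have h := core hM v (q - v) μ {q} (by omega)
      (fun i hi => hμ i (by rw [mem_I'] at hi; omega))
      (by
        intro i hi
        rw [mem_singleton] at hi
        rw [mem_I']
        omega)
    rwa [sum_singleton] at h
  · intro v q1 q2 μ hv h12 hq hμ
    have h := core hM v (q2 - v) μ {q1, q2} (by omega)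
      (fun i hi => hμ i (by rw [mem_I'] at hi; omega))
      (by
        intro i hi
        rw [mem_insert, mem_singleton] at hi
        rw [mem_I']
        omega)
    rwa [sum_pair (by omega)] at h
  · intro v q1 q2 q3 μ hv h12 h23 hq hμ
    have h := core hM v (q3 - v) μ {q1, q2, q3} (by omega)
      (fun i hi => hμ i (by rw [mem_I'] at hi; omega))
      (by
        intro i hi
        rw [mem_insert, mem_insert, mem_singleton] at hi
        rw [mem_I']
        omega)
    rw [sum_insert (by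
      rw [mem_insert, mem_singleton]
      omega), sum_pair (by omega)] at h
    linarith
  · intro q μ hq hμ
    have h := core hM N (N - q) μ {q} le_rfl
      (fun i hi => hμ i (by rw [mem_I'] at hi; omega) (by rw [mem_I'] at hi; omega))
      (by
        intro i hi
        rw [mem_singleton] at hi
        rw [mem_I']
        omega)
    rwa [sum_singleton] at h

end Pool.Agent.TMX.H54
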